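import Pool.Agent.W619.Y.Stm11

set_option autoImplicit false
set_option linter.overlappingInstances false
set_option linter.unusedSectionVars false

open FF IntermediateField Pool.Agent.W619.PQ Pool.Agent.W619.PL Pool.Agent.W619.TW
  Pool.Agent.W603.LV

namespace Pool.Agent.W258.PG.PRODF

open Pool.Agent.W619.Y

theorem main : Pool.Agent.W619.Y.S_PRODF := by
  intro k L _ _ _ d n m w y a x b hy hx D hD
  obtain ⟨Z, z, hz, hyz, hZ⟩ := hy
  choose Z' z' hz' hx' hZ' using hx
  set e : Fin d ⊕ Fin n ≃ Fin (d + n) := finSumFinEquiv with he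
  let N : Matrix (Fin d ⊕ Fin n) (Fin d ⊕ Fin n) L :=
    Matrix.of fun i j => D (e j) (Sum.elim z (fun i => z' i 0) i)
  have hxx : ∀ (E : Derivation k L L) i, E (x i) = Z' i 0 0 * E (z' i 0) := by
    intro E i
    have := hx' i E 0
    simpa using this
  have hM : ((Matrix.of fun i j => D j ((Fin.append y x : Fin (d + n) → L) i)).submatrix e e) =
      Matrix.fromBlocks Z 0 0 (Matrix.diagonal fun i => Z' i 0 0) * N := by
    ext i j
    rw [Matrix.mul_apply, Fintype.sum_sum_type]
    rcases i with i | i
    · simp only [Matrix.submatrix_apply, Matrix.of_apply, Matrix.fromBlocks_apply₁₁,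
        Matrix.fromBlocks_apply₁₂, Matrix.zero_apply, zero_mul, Finset.sum_const_zero, add_zero, N,
        he, finSumFinEquiv_apply_left, Fin.append_left, Sum.elim_inl]
      exact hyz _ _
    · simp only [Matrix.submatrix_apply, Matrix.of_apply, Matrix.fromBlocks_apply₂₁,
        Matrix.fromBlocks_apply₂₂, Matrix.zero_apply, zero_mul, Finset.sum_const_zero, zero_add, N,
        he, finSumFinEquiv_apply_right, Fin.append_right, Sum.elim_inr, Matrix.diagonal_apply]
      rw [Finset.sum_eq_single i]
      · rw [if_pos rfl]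
        exact hxx _ _
      · intro c _ hc
        rw [if_neg (Ne.symm hc), zero_mul]
      · intro h
        exact absurd (Finset.mem_univ i) h
  have hdet : (Matrix.of fun i j => D j ((Fin.append y x : Fin (d + n) → L) i)).det =
      Z.det * (∏ i, Z' i 0 0) * N.det := by
    rw [← Matrix.det_submatrix_equiv_self e, hM, Matrix.det_mul, Matrix.det_fromBlocks_zero₂₁,
      Matrix.det_diagonal]
  have hN : Ge w 0 N.det := by
    apply ge_det
    intro i j
    rcases i with i | i
    · exact hD _ _ (hz i)
    · exact hD _ _ (hz' i 0)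
  have hB : Ge w 0 (∏ i, (b i * (Z' i 0 0) ^ m)) := by
    have h := Ge.prod (P := w) Finset.univ (fun i => b i * (Z' i 0 0) ^ m) (fun _ => (0 : ℤ)) (by
      intro i _
      have := hZ' i
      rwa [Matrix.det_fin_one] at this)
    simpa using h
  have h1 : a * (∏ i, b i) * (Z.det * (∏ i, Z' i 0 0) * N.det) ^ m =
      (a * Z.det ^ m) * (∏ i, (b i * (Z' i 0 0) ^ m)) * N.det ^ m := by
    rw [Finset.prod_mul_distrib, Finset.prod_pow, mul_pow, mul_pow]
    ring
  rw [hdet, h1]
  have h2 := (hZ.mul hB).mul (hN.pow m)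
  simpa using h2

end Pool.Agent.W258.PG.PRODF
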